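import Pool.Agent.H67.KH.Main
import Pool.Agent.H67.KH.ELine
import Pool.Agent.H67.KH.ChiC

/-! # K3P.Cor : two consequences of the K3 theorem (`H67.KH.main_bb`)

(a) the orbit sums of `ι : (P, Q) ↦ (Q, -P)`; (b) two points in the same fibre. -/

namespace H71.K3P

open H67.KH H68.BB Polynomial

variable {K : Type} [Field K] [IsAlgClosed K] [CharZero K] {a b : MvPolynomial (Fin 2) K}

/-- the orbit sum of `ι` in terms of `bb` -/
theorem orbit_eq (ha : a.IsHomogeneous 8) (hb : b.IsHomogeneous 12) {P Q : Pt K} (hP : OnW a b P)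
    (hQ : OnW a b Q) :
    cl a b P Q + cl a b Q P.neg + cl a b P.neg Q.neg + cl a b Q.neg P - 4 • cl a b (o K) (o K) =
      2 • bb a b P Q := by
  have ho : OnW a b (o K) := OnW_o K ha hb
  have h1 := cl_pair ha hb hP hQ
  have h2 := cl_neg2 ha hb hQ hP
  have h3 := cl_neg ha hb hQ hP
  have e : cl a b P Q + cl a b Q P.neg + cl a b P.neg Q.neg + cl a b Q.neg P - 4 • cl a b (o K) (o K) =
      (cl a b P Q + cl a b P.neg Q.neg) + (cl a b Q P + cl a b Q P.neg) + (cl a b Q P + cl a b Q.neg P)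
        - 2 • cl a b Q P - 4 • cl a b (o K) (o K) := by
    abel
  rw [e, h1, h2, h3]
  unfold bb uu
  abel

/-- the orbit sums of `ι` on `W × W` are constant up to torsion -/
theorem orbit (ha : a.IsHomogeneous 8) (hb : b.IsHomogeneous 12) (hD : disc a b ≠ 0)
    {u0 u1 v0 v1 : K} (huv : u0 * v1 ≠ u1 * v0) (hu : ev (disc a b) u0 u1 = 0) (hv : ev (disc a b) v0 v1 = 0)
    {P Q : Pt K} (hP : OnW a b P) (hQ : OnW a b Q) :
    288 • (pt P Q + pt Q P.neg + pt P.neg Q.neg + pt Q.neg P - 4 • pt (o K) (o K)) ∈ RatEq a b := by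
  rw [← QuotientAddGroup.eq_zero_iff]
  have h1 : (QuotientAddGroup.mk (288 • (pt P Q + pt Q P.neg + pt P.neg Q.neg + pt Q.neg P
      - 4 • pt (o K) (o K))) : CH a b) = 288 • (cl a b P Q + cl a b Q P.neg + cl a b P.neg Q.neg
      + cl a b Q.neg P - 4 • cl a b (o K) (o K)) := rfl
  rw [h1, orbit_eq ha hb hP hQ, ← mul_smul]
  exact main_bb ha hb hD huv hu hv hP hQ

/-- `2 (P - o) × (P - o) = 0` -/
theorem uu_self (ha : a.IsHomogeneous 8) (hb : b.IsHomogeneous 12) {t x y : K}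
    (hP : OnW a b (⟨1, t, x, y⟩ : Pt K)) :
    2 • uu a b (⟨1, t, x, y⟩ : Pt K) ⟨1, t, x, y⟩ = 0 := by
  have hy : y ^ 2 = x ^ 3 + ev a 1 t * x + ev b 1 t := hP.2
  obtain ⟨π, hπ⟩ := place_exists K (1 : K)
  obtain ⟨ρ, hρ⟩ := place_exists K (0 : K)
  have h1 : Rd π.V π.φ (tt K) 1 := hπ
  have h0 : Rd ρ.V ρ.φ (tt K) 0 := hρ
  have := π.isLocal
  have := ρ.isLocal
  obtain ⟨ξ, hξ⟩ : ∃ ξ : Om K, ξ = algebraMap K (Om K) x - 1 + (tt K)⁻¹ := ⟨_, rfl⟩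
  have hσξ : ∀ σ : Om K ≃ₐ[RatFunc K] Om K, σ ξ = ξ := by
    intro σ
    rw [hξ, map_add, map_sub, map_inv₀, sigma_tt, sigma_cst, map_one]
  have hc : OnC a b (algebraMap K (Om K) t) (algebraMap K (Om K) t) ξ ξ 1 := by
    unfold OnC; ring
  have hξ1 : Rd π.V π.φ ξ x := by
    have h2 := (((rd_cst (π := π) x).sub Rd.one).add (h1.inv one_ne_zero))
    rw [← hξ] at h2
    have e : x - 1 + 1⁻¹ = x := by rw [inv_one]; ring
    rw [e] at h2
    exact h2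
  have hξ0 : ξ ∉ ρ.V := by
    intro hm
    have h2 : (tt K)⁻¹ ∈ ρ.V := by
      have e : (tt K)⁻¹ = ξ - (algebraMap K (Om K) x - 1) := by rw [hξ]; ring
      rw [e]
      exact ρ.V.sub_mem hm (ρ.V.sub_mem (rd_cst (π := ρ) x).mem ρ.V.one_mem)
    have h3 : tt K ≠ 0 := by
      have := tt_ne K 0
      rwa [show (cst (0 : K) : Om K) = 0 from map_zero _] at this
    have h4 := (h0.mul (Rd.of_mem (φ := ρ.φ) h2))
    rw [mul_inv_cancel₀ h3, zero_mul] at h4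
    exact one_ne_zero (Rd.one.unique h4)
  have e1 := chi_lim_fin (a := a) (b := b) (rd_cst (π := π) t) (rd_cst (π := π) t) hξ1 hξ1
    (Rd.one (V := π.V) (φ := π.φ))
  have e2 := chi_lim_inf (π := ρ) (rd_cst (π := ρ) t) (rd_cst (π := ρ) t) hc hξ0 hξ0
  have e3 := Lim.eq (chi_onW hc) (by
    intro σ
    rw [chi_map, sigma_cst, hσξ, map_one]) e1 e2
  have e4 : OnC a b t t x x 1 := by unfold OnC; ring
  have e5 := chiC_eq ha hb e4 hy
  rw [one_mul] at e5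
  rw [e5] at e3
  exact add_right_cancel (e3.trans (zero_add _).symm)

/-- the three points of a line: additivity in the first variable -/
private theorem line_uu (ha : a.IsHomogeneous 8) (hb : b.IsHomogeneous 12) {t x₁ x₂ x₃ y₁ y₂ y₃ m n : K}
    (hp : (X ^ 3 + C (ev a 1 t) * X + C (ev b 1 t) - (C m * X + C n) ^ 2 : K[X]) =
      (X - C x₁) * (X - C x₂) * (X - C x₃)) (h1 : y₁ = m * x₁ + n) (h2 : y₂ = m * x₂ + n)
    (h3 : y₃ = m * x₃ + n) {Q : Pt K} (hQ : OnW a b Q) :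
    cl a b ⟨1, t, x₁, y₁⟩ Q + cl a b ⟨1, t, x₂, y₂⟩ Q + cl a b ⟨1, t, x₃, y₃⟩ Q = 3 • cl a b (o K) Q := by
  have h := cl_line ha hb t m n hQ
  have hr : (X ^ 3 + C (ev a 1 t) * X + C (ev b 1 t) - (C m * X + C n) ^ 2 : K[X]).roots = {x₁, x₂, x₃} := by
    rw [hp]
    rw [roots_mul (mul_ne_zero (mul_ne_zero (X_sub_C_ne_zero _) (X_sub_C_ne_zero _)) (X_sub_C_ne_zero _)),
      roots_mul (mul_ne_zero (X_sub_C_ne_zero _) (X_sub_C_ne_zero _)), roots_X_sub_C, roots_X_sub_C,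
      roots_X_sub_C]
    rfl
  rw [hr] at h
  simp only [Multiset.insert_eq_cons, Multiset.map_cons, Multiset.map_singleton, Multiset.sum_cons,
    Multiset.sum_singleton] at h
  rw [h1, h2, h3, add_assoc]
  exact h

/-- antisymmetry of `uu` in one fibre -/
theorem uu_anti (ha : a.IsHomogeneous 8) (hb : b.IsHomogeneous 12) {t x y x' y' : K}
    (hP : OnW a b (⟨1, t, x, y⟩ : Pt K)) (hQ : OnW a b (⟨1, t, x', y'⟩ : Pt K)) :
    2 • uu a b (⟨1, t, x, y⟩ : Pt K) ⟨1, t, x', y'⟩ + 2 • uu a b (⟨1, t, x', y'⟩ : Pt K) ⟨1, t, x, y⟩ = 0 := by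
  have hy : y ^ 2 = x ^ 3 + ev a 1 t * x + ev b 1 t := hP.2
  have hy' : y' ^ 2 = x' ^ 3 + ev a 1 t * x' + ev b 1 t := hQ.2
  have ho : OnW a b (o K) := OnW_o K ha hb
  obtain ⟨sw, hsw⟩ := exists_swap a b
  by_cases hx : x = x'
  · subst hx
    have h1 : (y' - y) * (y' + y) = 0 := by linear_combination hy' - hy
    rcases mul_eq_zero.1 h1 with h2 | h2
    · have h3 : y' = y := sub_eq_zero.1 h2
      subst h3
      rw [uu_self ha hb hP, add_zero]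
    · have h3 : y' = -y := eq_neg_of_add_eq_zero_left h2
      subst h3
      have hN : (⟨1, t, x, -y⟩ : Pt K) = (⟨1, t, x, y⟩ : Pt K).neg := rfl
      rw [hN]
      have k0 := uu_self ha hb hP
      have k1 := cl_neg2 ha hb hP hP
      have k2 := cl_neg ha hb hP hP
      have k3 := cl_neg2 ha hb ho hP
      have k4 := cl_neg ha hb hP ho
      have k5 : uu a b (⟨1, t, x, y⟩ : Pt K) (⟨1, t, x, y⟩ : Pt K).neg = -uu a b (⟨1, t, x, y⟩ : Pt K) ⟨1, t, x, y⟩ := by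
        unfold uu
        rw [eq_sub_of_add_eq' k1, eq_sub_of_add_eq' k3]
        abel
      have k6 : uu a b (⟨1, t, x, y⟩ : Pt K).neg (⟨1, t, x, y⟩ : Pt K) = -uu a b (⟨1, t, x, y⟩ : Pt K) ⟨1, t, x, y⟩ := by
        unfold uu
        rw [eq_sub_of_add_eq' k2, eq_sub_of_add_eq' k4]
        abel
      rw [k5, k6]
      generalize uu a b (⟨1, t, x, y⟩ : Pt K) ⟨1, t, x, y⟩ = U at k0 ⊢
      have k7 : (2 • -U + 2 • -U : CH a b) = (-(2 • U) - 2 • U : CH a b) := by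
        rw [two_nsmul, two_nsmul]; abel
      rw [k7, k0, neg_zero, sub_zero]
  · have hx' : x - x' ≠ 0 := sub_ne_zero.2 hx
    obtain ⟨m, hm⟩ : ∃ m, m = (y - y') / (x - x') := ⟨_, rfl⟩
    have hm' : m * (x - x') = y - y' := by rw [hm]; exact div_mul_cancel₀ _ hx'
    obtain ⟨n, hn⟩ : ∃ n, n = y - m * x := ⟨_, rfl⟩
    obtain ⟨z, hz⟩ : ∃ z, z = m ^ 2 - x - x' := ⟨_, rfl⟩
    have e1 : y = m * x + n := by rw [hn]; ring
    have e2 : y' = m * x' + n := by rw [hn]; linear_combination hm'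
    -- coefficients of the cubic
    have c1 : ev a 1 t - 2 * m * n = x * x' + (x + x') * z := by
      apply mul_left_cancel₀ hx'
      have h1 : (m * x + n) ^ 2 = x ^ 3 + ev a 1 t * x + ev b 1 t := by rw [← e1]; exact hy
      have h2 : (m * x' + n) ^ 2 = x' ^ 3 + ev a 1 t * x' + ev b 1 t := by rw [← e2]; exact hy'
      rw [hz]
      linear_combination h2 - h1
    have c0 : ev b 1 t - n ^ 2 = -(x * x' * z) := by
      have h1 : (m * x + n) ^ 2 = x ^ 3 + ev a 1 t * x + ev b 1 t := by rw [← e1]; exact hy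
      rw [hz] at c1 ⊢
      linear_combination -h1 - x * c1
    have hp : (X ^ 3 + C (ev a 1 t) * X + C (ev b 1 t) - (C m * X + C n) ^ 2 : K[X]) =
        (X - C x) * (X - C x') * (X - C z) := by
      have d1 : C (ev a 1 t) - 2 * C m * C n = C x * C x' + (C x + C x') * C z := by
        have := congrArg C c1
        simpa only [map_sub, map_mul, map_add, map_ofNat] using this
      have d0 : C (ev b 1 t) - C n ^ 2 = -(C x * C x' * C z) := by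
        have := congrArg C c0
        simpa only [map_sub, map_mul, map_add, map_neg, map_pow] using this
      have d2 : C m ^ 2 = C x + C x' + C z := by
        have : m ^ 2 = x + x' + z := by rw [hz]; ring
        have := congrArg C this
        simpa only [map_add, map_pow] using this
      linear_combination X * d1 + d0 - X ^ 2 * d2
    obtain ⟨w, hw⟩ : ∃ w, w = m * z + n := ⟨_, rfl⟩
    have hR : OnW a b (⟨1, t, z, w⟩ : Pt K) := by
      refine ⟨Or.inl one_ne_zero, ?_⟩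
      have h1 := congrArg (fun p => p.eval z) hp
      simp only [eval_sub, eval_add, eval_mul, eval_pow, eval_X, eval_C, sub_self, mul_zero] at h1
      show w ^ 2 = z ^ 3 + ev a 1 t * z + ev b 1 t
      rw [hw]
      linear_combination -h1
    -- the six linear relations
    have L1 : ∀ {Q : Pt K}, OnW a b Q → uu a b ⟨1, t, x, y⟩ Q + uu a b ⟨1, t, x', y'⟩ Q + uu a b ⟨1, t, z, w⟩ Q = 0 := by
      intro Q hQ'
      have h1 := line_uu ha hb hp e1 e2 hw hQ'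
      have h2 := line_uu ha hb hp e1 e2 hw ho
      unfold uu
      have e : cl a b ⟨1, t, x, y⟩ Q - cl a b (o K) Q - cl a b ⟨1, t, x, y⟩ (o K) + cl a b (o K) (o K) +
          (cl a b ⟨1, t, x', y'⟩ Q - cl a b (o K) Q - cl a b ⟨1, t, x', y'⟩ (o K) + cl a b (o K) (o K)) +
          (cl a b ⟨1, t, z, w⟩ Q - cl a b (o K) Q - cl a b ⟨1, t, z, w⟩ (o K) + cl a b (o K) (o K)) =
          (cl a b ⟨1, t, x, y⟩ Q + cl a b ⟨1, t, x', y'⟩ Q + cl a b ⟨1, t, z, w⟩ Q) -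
          (cl a b ⟨1, t, x, y⟩ (o K) + cl a b ⟨1, t, x', y'⟩ (o K) + cl a b ⟨1, t, z, w⟩ (o K)) -
          3 • cl a b (o K) Q + 3 • cl a b (o K) (o K) := by abel
      rw [e, h1, h2]
      abel
    have hsu : ∀ P Q : Pt K, sw (uu a b P Q) = uu a b Q P := by
      intro P Q
      unfold uu
      rw [map_add, map_sub, map_sub, hsw, hsw, hsw, hsw]
      abel
    have L2 : ∀ {Q : Pt K}, OnW a b Q → uu a b Q ⟨1, t, x, y⟩ + uu a b Q ⟨1, t, x', y'⟩ + uu a b Q ⟨1, t, z, w⟩ = 0 := by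
      intro Q hQ'
      have h1 := congrArg sw (L1 hQ')
      rw [map_add, map_add, map_zero, hsu, hsu, hsu] at h1
      exact h1
    have s1 := uu_self ha hb hP
    have s2 := uu_self ha hb hQ
    have s3 := uu_self ha hb hR
    have r1 : 2 • uu a b (⟨1, t, x', y'⟩ : Pt K) ⟨1, t, x, y⟩ + 2 • uu a b (⟨1, t, z, w⟩ : Pt K) ⟨1, t, x, y⟩ = 0 := by
      have e : 2 • uu a b (⟨1, t, x', y'⟩ : Pt K) ⟨1, t, x, y⟩ + 2 • uu a b (⟨1, t, z, w⟩ : Pt K) ⟨1, t, x, y⟩ =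
          2 • (uu a b ⟨1, t, x, y⟩ ⟨1, t, x, y⟩ + uu a b ⟨1, t, x', y'⟩ ⟨1, t, x, y⟩ +
            uu a b ⟨1, t, z, w⟩ ⟨1, t, x, y⟩) - 2 • uu a b ⟨1, t, x, y⟩ ⟨1, t, x, y⟩ := by abel
      rw [e, L1 hP, s1, nsmul_zero, sub_zero]
    have r2 : 2 • uu a b (⟨1, t, z, w⟩ : Pt K) ⟨1, t, x, y⟩ + 2 • uu a b (⟨1, t, z, w⟩ : Pt K) ⟨1, t, x', y'⟩ = 0 := by
      have e : 2 • uu a b (⟨1, t, z, w⟩ : Pt K) ⟨1, t, x, y⟩ + 2 • uu a b (⟨1, t, z, w⟩ : Pt K) ⟨1, t, x', y'⟩ =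
          2 • (uu a b ⟨1, t, z, w⟩ ⟨1, t, x, y⟩ + uu a b ⟨1, t, z, w⟩ ⟨1, t, x', y'⟩ +
            uu a b ⟨1, t, z, w⟩ ⟨1, t, z, w⟩) - 2 • uu a b ⟨1, t, z, w⟩ ⟨1, t, z, w⟩ := by abel
      rw [e, L2 hR, s3, nsmul_zero, sub_zero]
    have r3 : 2 • uu a b (⟨1, t, x, y⟩ : Pt K) ⟨1, t, x', y'⟩ + 2 • uu a b (⟨1, t, z, w⟩ : Pt K) ⟨1, t, x', y'⟩ = 0 := by
      have e : 2 • uu a b (⟨1, t, x, y⟩ : Pt K) ⟨1, t, x', y'⟩ + 2 • uu a b (⟨1, t, z, w⟩ : Pt K) ⟨1, t, x', y'⟩ =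
          2 • (uu a b ⟨1, t, x, y⟩ ⟨1, t, x', y'⟩ + uu a b ⟨1, t, x', y'⟩ ⟨1, t, x', y'⟩ +
            uu a b ⟨1, t, z, w⟩ ⟨1, t, x', y'⟩) - 2 • uu a b ⟨1, t, x', y'⟩ ⟨1, t, x', y'⟩ := by abel
      rw [e, L1 hQ, s2, nsmul_zero, sub_zero]
    rw [eq_neg_of_add_eq_zero_left r3, eq_neg_of_add_eq_zero_left r1, eq_neg_of_add_eq_zero_left r2]
    abel

/-- two points in the same fibre -/
theorem fibre (ha : a.IsHomogeneous 8) (hb : b.IsHomogeneous 12) (hD : disc a b ≠ 0)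
    {u0 u1 v0 v1 : K} (huv : u0 * v1 ≠ u1 * v0) (hu : ev (disc a b) u0 u1 = 0) (hv : ev (disc a b) v0 v1 = 0)
    {t x y x' y' : K} (hP : OnW a b (⟨1, t, x, y⟩ : Pt K)) (hQ : OnW a b (⟨1, t, x', y'⟩ : Pt K)) :
    1152 • prod (⟨1, t, x, y⟩ : Pt K) (o K) ⟨1, t, x', y'⟩ (o K) ∈ RatEq a b := by
  rw [← QuotientAddGroup.eq_zero_iff]
  have h1 : (QuotientAddGroup.mk (1152 • prod (⟨1, t, x, y⟩ : Pt K) (o K) ⟨1, t, x', y'⟩ (o K)) : CH a b) =
      1152 • uu a b (⟨1, t, x, y⟩ : Pt K) ⟨1, t, x', y'⟩ := rfl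
  have h2 := main_bb ha hb hD huv hu hv hP hQ
  have h3 := uu_anti ha hb hP hQ
  unfold bb at h2
  rw [h1]
  have h4 : (1152 : ℕ) • uu a b (⟨1, t, x, y⟩ : Pt K) ⟨1, t, x', y'⟩ =
      288 • (2 • uu a b (⟨1, t, x, y⟩ : Pt K) ⟨1, t, x', y'⟩ + 2 • uu a b (⟨1, t, x', y'⟩ : Pt K) ⟨1, t, x, y⟩) +
      576 • (uu a b (⟨1, t, x, y⟩ : Pt K) ⟨1, t, x', y'⟩ - uu a b (⟨1, t, x', y'⟩ : Pt K) ⟨1, t, x, y⟩) := by
    abel
  rw [h4, h3, h2, nsmul_zero, add_zero]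

end H71.K3P
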